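import Pool.Agent.Q120.ME.Stm

/-!
# Job ME-CHE: Chernoff's bound
-/

set_option autoImplicit false

namespace Pool.Agent.Q92.ME

open Finset MeasureTheory Filter Pool.Agent.Q120.ET Pool.Agent.Q120.ME
open scoped Topology

theorem hfun_pos {u : ℝ} (hu : 0 < u) (h1 : u ≠ 1) : 0 < hfun u := by
  have hi : (0 : ℝ) < u⁻¹ := inv_pos.2 hu
  have hne : u⁻¹ ≠ 1 := by
    intro h
    exact h1 (inv_eq_one.1 h)
  have h := Real.log_lt_sub_one_of_pos hi hne
  rw [Real.log_inv] at h
  have h2 := mul_lt_mul_of_pos_left h hu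
  have h3 : u * (u⁻¹ - 1) = 1 - u := by
    field_simp
  rw [h3] at h2
  unfold hfun
  linarith

theorem bern_nonneg {p : ℕ → ℝ} {F : Finset ℕ} (hp : ∀ n ∈ F, 0 ≤ p n ∧ p n ≤ 1) (T : Finset ℕ) :
    0 ≤ bern p F T := by
  unfold bern
  refine Finset.prod_nonneg fun n hn => ?_
  have h := hp n hn
  split_ifs
  · exact h.1
  · linarith [h.2]

/-- The weighted exponential sum. -/
theorem tilt (hG : J_GEN) {p : ℕ → ℝ} {F : Finset ℕ} (hp : ∀ n ∈ F, 0 ≤ p n ∧ p n ≤ 1) {u : ℝ} (hu : 0 < u) :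
    ∑ T ∈ F.powerset, bern p F T * Real.exp (Real.log u * ((T.card : ℝ) - u * ∑ n ∈ F, p n)) ≤
      Real.exp (-(hfun u * ∑ n ∈ F, p n)) := by
  have h := hG p F hp (Real.log u)
  rw [Real.exp_log hu] at h
  have e : ∀ T : Finset ℕ, bern p F T * Real.exp (Real.log u * ((T.card : ℝ) - u * ∑ n ∈ F, p n)) =
      Real.exp (-(u * Real.log u * ∑ n ∈ F, p n)) * (bern p F T * Real.exp (Real.log u * T.card)) := by
    intro T
    have : Real.log u * ((T.card : ℝ) - u * ∑ n ∈ F, p n) =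
        -(u * Real.log u * ∑ n ∈ F, p n) + Real.log u * T.card := by ring
    rw [this, Real.exp_add]
    ring
  rw [Finset.sum_congr rfl fun T _ => e T, ← Finset.mul_sum]
  calc _ ≤ Real.exp (-(u * Real.log u * ∑ n ∈ F, p n)) * Real.exp ((u - 1) * ∑ n ∈ F, p n) :=
        mul_le_mul_of_nonneg_left h (Real.exp_pos _).le
    _ = Real.exp (-(hfun u * ∑ n ∈ F, p n)) := by
        rw [← Real.exp_add]
        congr 1
        unfold hfun
        ring

theorem t_CHE (hG : J_GEN) : J_CHE := by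
  intro ε hε
  have hd : (0 : ℝ) < min ε (1 / 2) := lt_min hε (by norm_num)
  have hd2 : min ε (1 / 2) ≤ (1 / 2 : ℝ) := min_le_right _ _
  have hd1 : min ε (1 / 2) ≤ ε := min_le_left _ _
  obtain ⟨δ, hδ⟩ : ∃ δ, δ = min ε (1 / 2) := ⟨_, rfl⟩
  rw [← hδ] at hd hd1 hd2
  have p1 : 0 < hfun (1 + ε) := hfun_pos (by linarith) (by linarith)
  have p2 : 0 < hfun (1 - δ) := hfun_pos (by linarith) (by linarith)
  refine ⟨min (hfun (1 + ε)) (hfun (1 - δ)), lt_min p1 p2, fun p F hp => ?_⟩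
  have hm : 0 ≤ ∑ n ∈ F, p n := Finset.sum_nonneg fun n hn => (hp n hn).1
  obtain ⟨m, hmm⟩ : ∃ m, m = ∑ n ∈ F, p n := ⟨_, rfl⟩
  have t1 := tilt hG hp (u := 1 + ε) (by linarith)
  have t2 := tilt hG hp (u := 1 - δ) (by linarith)
  rw [← hmm] at hm t1 t2 ⊢
  have l1 : 0 < Real.log (1 + ε) := Real.log_pos (by linarith)
  have l2 : Real.log (1 - δ) < 0 := Real.log_neg (by linarith) (by linarith)
  have step : ∑ T ∈ F.powerset with ε * m < |(T.card : ℝ) - m|, bern p F T ≤
      ∑ T ∈ F.powerset, (bern p F T * Real.exp (Real.log (1 + ε) * ((T.card : ℝ) - (1 + ε) * m)) +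
        bern p F T * Real.exp (Real.log (1 - δ) * ((T.card : ℝ) - (1 - δ) * m))) := by
    refine le_trans (Finset.sum_le_sum fun T hT => ?_)
      (Finset.sum_le_sum_of_subset_of_nonneg (Finset.filter_subset _ _) fun T _ _ => ?_)
    · rw [Finset.mem_filter] at hT
      have hb := bern_nonneg hp T
      have e1 := (Real.exp_pos (Real.log (1 + ε) * ((T.card : ℝ) - (1 + ε) * m))).le
      have e2 := (Real.exp_pos (Real.log (1 - δ) * ((T.card : ℝ) - (1 - δ) * m))).le
      rw [← mul_add]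
      refine le_mul_of_one_le_right hb ?_
      rcases lt_abs.1 hT.2 with h | h
      · have : 0 ≤ Real.log (1 + ε) * ((T.card : ℝ) - (1 + ε) * m) :=
          mul_nonneg l1.le (by linarith)
        have := Real.one_le_exp this
        linarith
      · have h3 : δ * m ≤ ε * m := mul_le_mul_of_nonneg_right hd1 hm
        have : 0 ≤ Real.log (1 - δ) * ((T.card : ℝ) - (1 - δ) * m) :=
          mul_nonneg_of_nonpos_of_nonpos l2.le (by linarith)
        have := Real.one_le_exp this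
        linarith
    · have hb := bern_nonneg hp T
      positivity
  rw [Finset.sum_add_distrib] at step
  have c1 : Real.exp (-(hfun (1 + ε) * m)) ≤ Real.exp (-(min (hfun (1 + ε)) (hfun (1 - δ)) * m)) := by
    apply Real.exp_le_exp.2
    have := mul_le_mul_of_nonneg_right (min_le_left (hfun (1 + ε)) (hfun (1 - δ))) hm
    linarith
  have c2 : Real.exp (-(hfun (1 - δ) * m)) ≤ Real.exp (-(min (hfun (1 + ε)) (hfun (1 - δ)) * m)) := by
    apply Real.exp_le_exp.2
    have := mul_le_mul_of_nonneg_right (min_le_right (hfun (1 + ε)) (hfun (1 - δ))) hm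
    linarith
  linarith

end Pool.Agent.Q92.ME
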